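import Pool.Agent.QI97.Final

/-!
# A graph product of finite groups that is not quasi-isometric to a right-angled Coxeter group

All definitions are in `Pool.Agent.QI97.Defs`.

The example (`Pool.Agent.QI97.Example`): take the complete bipartite graph `K₃₃` with vertex
groups `ℤ/2`, a vertex with group `ℤ/3` joined to the four vertices `a₀, a₁, b₀, b₁`, and a vertex
with group `ℤ/5` joined to `a₁, a₂, b₁, b₂`.

Idea of the proof. The graph product `G` acts on a tree with vertex groups `P = ⟨K₃₃⟩` (a product
of two virtually free groups) and `ℤ/3 × E₁`, `ℤ/5 × E₂`, with `E₁`, `E₂` virtually `ℤ²`. Subsets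
of quadratic growth do not coarsely separate the cosets of `P`, so a group `W` quasi-isometric to
`G` acts on the tree, with finitely many orbits, and keeps the valences `3`, `5`, `∞`. If `W` is
a right-angled Coxeter group, then the quotient of the tree is a finite tree, which has a leaf, and
the leaf is a vertex of valence `3` or `5` on whose neighbours its stabiliser acts transitively.
Each edge stabiliser contains a standard subgroup of finite index in the stabilisers of the
end of finite valence of the edge, and the retraction to the standard subgroup then gives a finite
subgroup of `W` acting transitively on three or five points, although `W` has no odd torsion.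
-/

universe u

namespace Pool.Agent.Results.MP_97dbbf_al.NotCoxeter

open QI97

/-- There is a graph product of finite groups over a finite simple graph which is not
quasi-isometric to any right-angled Coxeter group over a finite simple graph. -/
theorem result : ∃ (ι : Type) (_ : Finite ι) (Γ : SimpleGraph ι) (G : ι → Type)
    (_ : ∀ i, Group (G i)) (_ : ∀ i, Finite (G i)), ∀ (κ : Type u) (_ : Finite κ)
    (Δ : SimpleGraph κ), ¬ QuasiIsometric (GraphProduct Γ G) (RACG Δ) :=
  ⟨Ex.Ix, inferInstance, Ex.Γ0, GP.Z Ex.ord0, inferInstance, inferInstance,
    fun _ _ Δ => not_qi Δ⟩

end Pool.Agent.Results.MP_97dbbf_al.NotCoxeter
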